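import Pool.Agent.E8helper21.Q2.Bas
import Pool.Agent.E8helper21.QT.Fin

/-!
The statements of the pieces for the curves `y² = x³ + 2 D x`. Each `S_X` is a statement; its proof is
`t_X` in the file of the seat that does it.
-/

set_option autoImplicit false
set_option linter.unusedSectionVars false

open Filter Complex
open scoped Topology PeriodPair
open H667R3 hiding sq
open Pool.Agent.TH936.CM Pool.Agent.W192.HK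

namespace Pool.Agent.E8helper21.Q2

open Pool.Agent.Y699
open H385 (ZI RQ im1 nrm)
open Pool.Agent.H304R3.HK (tc HC LH)
open Pool.Agent.W164.RC (tc_mul tc_star two2 prim_iff_dvd unit_norm unit_cases)
open Pool.Agent.H304R2.EC.A1 (prim prim_mul prim_cancel prim_one prim_norm_odd prim_star eq_one_of_prim
  norm_def' re_mul' im_mul' eq_of_dvd prim_ne_zero exists_prim)
open Pool.Agent.TH841.SH.D (Sha)
open Pool.Agent.Z702 (WZ)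
open Pool.Agent.Y668 (Wt)
open Pool.Agent.E8helper21.QT (Cls nD prP Ix pf cv aC)

/-! ### complex analysis -/

/-- LH -/
def S_LH : Prop := ∀ (L : PeriodPair) (Ω : ℂ), GLat L Ω → ∀ t : ℂ, t ∉ L.lattice →
  Tendsto (fun δ : ℝ => ∑' b : ZI, (-1 : ℂ) ^ b.re * fd δ (t + Ω * tc b)) (𝓝[>] 0) (𝓝 (Hf L Ω t))

/-- HQ -/
def S_HQ : Prop := ∀ (L : PeriodPair) (Ω : ℂ), GLat L Ω → ∀ t : ℂ, t ∉ L.lattice →
  Hf L Ω t ^ 2 = ℘[L] t + e1 L Ω ∧ Hf L Ω (-t) = -Hf L Ω t ∧ Hf L Ω (t + Ω) = -Hf L Ω t ∧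
    Hf L Ω (t + I * Ω) = Hf L Ω t

/-- HC -/
def S_HC : Prop := ∀ (L : PeriodPair) (Ω : ℂ), GLat L Ω → ∃ c : ℂ, c ^ 2 = 2 ∧ ∀ t : ℂ,
  t ∉ L.lattice → t + I * Ω / 2 ∉ L.lattice → Hf L Ω t * Hf L Ω (t + I * Ω / 2) = c

/-- LK -/
def S_LK : Prop := ∀ (L : PeriodPair) (Ω : ℂ), GLat L Ω → ∀ z : ℂ, z ∉ L.lattice →
  Tendsto (fun δ : ℝ => ∑' b : ZI, tI b * fd δ (z + Ω * tc b)) (𝓝[>] 0) (𝓝 (Kf L Ω z))

/-- K4 -/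
def S_K4 : Prop := ∀ (L : PeriodPair) (Ω : ℂ), GLat L Ω → ∀ z : ℂ, 2 * z ∉ L.lattice →
  ∃ κ : ℂ, κ ^ 2 = 2 * X0 L Ω ∧ Kf L Ω z ^ 4 = (℘[L] z + X0 L Ω) ^ 2 + κ * ℘'[L] z

/-- PR -/
def S_PR : Prop := ∀ (L : PeriodPair) (Ω : ℂ), GLat L Ω → ∀ P : ℂ, 2 * (dz Ω + P) ∉ L.lattice →
  2 * (dz Ω - P) ∉ L.lattice →
  ∃ ρ : ℂ, ρ ^ 2 * ℘[L] (dz Ω + P) = X0 L Ω ∧ Kf L Ω (dz Ω - P) = ρ * Kf L Ω (dz Ω + P)

/-- M0 -/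
def S_M0 : Prop := ∃ (L : PeriodPair) (Ω : ℂ), GLat L Ω ∧ Kf L Ω (dz Ω) ^ 4 = -8

/-- VAL -/
def S_VAL : Prop := ∀ (L : PeriodPair) (Ω : ℂ), GLat L Ω →
  ∀ (Γ : Type) [LinearOrderedCommGroupWithZero Γ] (v : Valuation ℂ Γ), v 2 < 1 →
  ∀ m : ℂ, m ^ 4 = -8 → ∀ P : ℂ, OT L P →
    Cg v ((Kf L Ω (dz Ω + P) + Kf L Ω (dz Ω - P)) / m) 1 ∧ v ((1 + I) * Kf L Ω (dz Ω - P) / m) < 1

/-- LIM -/
def S_LIM : Prop := ∀ (L : PeriodPair) (Ω : ℂ), GLat L Ω → ∀ (D : ZI) (hD : prim D) [Fintype (RQ D)]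
  (F : ZI → ℂ), (∀ a b, D ∣ a - b → F a = F b) →
  Tendsto (RS (open Classical in fun a => if prim a then tc (x2 a) * F a else 0)) (𝓝[>] 0)
    (𝓝 (tc (x2 D) * Ω / (tc D * tc two2) *
      ∑ q : RQ D, F (two2 * (two2 * q.out)) * Kf L Ω (dz Ω + zq Ω D (two2 * q.out))))

/-! ### graphs -/

/-- GR1 -/
def S_GR1 : Prop := ∀ (κ : Type) [Fintype κ] [DecidableEq κ] (w : κ → ZMod 2) (e : κ → κ → ZMod 2),
  (∀ v, e v v = 0) → (∀ u v, e u v = e v u) → ∀ V : Finset κ,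
  ∑ S ∈ V.powerset, NN w e S * ∏ v ∈ V \ S, (w v + ∑ u ∈ S, e u v) = RR w V

/-- GR2 -/
def S_GR2 : Prop := ∀ P : Finset ℕ, Cls P →
  (NN (wt (prP P)) (em (prP P)) Finset.univ = 1 ↔ K2 P)

/-- K2S -/
def S_K2S : Prop := ∀ P : Finset ℕ, Cls P → (K2 P ↔ ∀ T ⊆ P,
  (∀ q ∈ P \ T, IsSquare ((∏ p ∈ T, p : ℕ) : ZMod q)) →
  (∀ q ∈ T, IsSquare ((2 * ∏ p ∈ P \ T, p : ℕ) : ZMod q)) → T = ∅)

/-! ### Hecke character -/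

/-- HCK -/
def S_HCK : Prop := ∀ (ι : Type) [DecidableEq ι] (pr : ι → ZI) (hp : PF pr) (V : Finset ι),
  HC (cn8 pr V) (X8 hp V)

/-- LHE -/
def S_LHE : Prop := ∀ (ι : Type) [DecidableEq ι] (pr : ι → ZI) (hp : PF pr) (V : Finset ι) (l : ℂ),
  Tendsto (RS (cx pr V)) (𝓝[>] 0) (𝓝 l) → LH (X8 hp V) (1 / 2) = (starRingEnd ℂ) l

/-- SUP -/
def S_SUP : Prop := ∀ π : ZI, PP π → q4 π (-2) = x2 π

/-- EU -/
def S_EU : Prop := ∀ (P : Finset ℕ) (hP : Cls P),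
  Differentiable ℂ (fun s => LH (X8 (pf hP) Finset.univ) (s - 1 / 2)) ∧
  ∀ s : ℂ, 3 / 2 < s.re →
    HasProd (fun p : Nat.Primes => (1 - (aC (-2 * nD P) p : ℂ) * ((p : ℕ) : ℂ) ^ (-s) +
      (if ((p : ℕ) : ℤ) ∣ (cv (-2 * nD P)).Δ then 0 else ((p : ℕ) : ℂ) ^ (1 - 2 * s)))⁻¹)
      (LH (X8 (pf hP) Finset.univ) (s - 1 / 2))

/-! ### algebraic side -/

/-- ALG -/
def S_ALG : Prop := ∀ P : Finset ℕ, Cls P → K2 P →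
  (∀ x : Sha (Wt ((0 : ℤ) : ℚ) ((2 * (nD P : ℤ) : ℤ) : ℚ)), x + x = 0 → x = 0) ∧
    Finite (Wt ((0 : ℤ) : ℚ) ((2 * (nD P : ℤ) : ℤ) : ℚ)).toAffine.Point

/-- CNV -/
def S_CNV : Prop := ∀ P : Finset ℕ, Cls P → Finite (WZ 0 (2 * (nD P : ℤ))).toAffine.Point →
  (∀ x : Sha (WZ 0 (2 * (nD P : ℤ))), x + x = 0 → x = 0) → K2 P

/-- TAM -/
def S_TAM : Prop := ∀ D : ℤ, D % 2 = 1 →
  @Pool.Agent.Y700.tam (cv (-2 * D)) 2 ⟨Nat.prime_two⟩ = 2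

/-- MIN -/
def S_MIN : Prop := ∀ D : ℤ, Squarefree D → Pool.Agent.W97.MT.IsGloballyMinimal (cv D)

/-- PER -/
def S_PER : Prop := ∀ (L : PeriodPair) (Ω : ℂ), GLat L Ω → ∀ D : ℤ, 0 < D → ∃ A : ℝ, 0 < A ∧
  ∫ x in {x : ℝ | 0 < Pool.Agent.Y702.G.cubic (cv (-2 * D)) x},
    1 / Real.sqrt (Pool.Agent.Y702.G.cubic (cv (-2 * D)) x) = A ∧
  (A : ℂ) ^ 4 * (8 * (D : ℂ)) = Ω ^ 4

/-! ### the count -/

/-- the class: all squarefree `D` whose prime factors are `1` modulo `4` -/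
def C2 (D : ℕ) : Prop := Squarefree D ∧ ∀ p : ℕ, p.Prime → p ∣ D → p % 4 = 1

open Classical in
/-- CNT -/
def S_CNT : Prop := ∀ Q : ℕ → Prop, (∀ D, C2 D → (Q D ↔ K2 D.primeFactors)) →
  Tendsto (fun X : ℕ => (((Finset.Icc 1 X).filter fun D => C2 D ∧ Q D).card : ℝ) /
    ((Finset.Icc 1 X).filter fun D => C2 D).card) atTop
    (𝓝 (∏' i : ℕ, (1 - (1 / 2 : ℝ) ^ (2 * i + 1))))

end Pool.Agent.E8helper21.Q2
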