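import Pool.Agent.E8helper21.QT.Hck
import Pool.Agent.E8helper21.QT.Gr

/-!
The curves `y² = x³ + 2 D x`: definitions and first properties.
-/

set_option autoImplicit false
set_option linter.unusedSectionVars false

open Filter Complex
open scoped Topology PeriodPair
open H667R3 hiding sq
open Pool.Agent.TH936.CM Pool.Agent.W192.HK

namespace Pool.Agent.E8helper21.Q2

open Pool.Agent.Y699
open H385 (ZI RQ im1 nrm)
open Pool.Agent.H304R3.HK (tc HC LH)
open Pool.Agent.W164.RC (tc_mul tc_star two2 prim_iff_dvd unit_norm unit_cases)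
open Pool.Agent.H304R2.EC.A1 (prim prim_mul prim_cancel prim_one prim_norm_odd prim_star eq_one_of_prim
  norm_def' re_mul' im_mul' eq_of_dvd prim_ne_zero exists_prim)

/-- `i ^ (Im a / 2)`, for primary `a` the quartic symbol `(-2 / a)` -/
def x2 (a : ZI) : ZI := im1 ^ ((a.im / 2) % 4).toNat

lemma x2_norm (a : ZI) : (x2 a).norm = 1 := by
  unfold x2
  have h1 : (a.im / 2) % 4 = 0 ∨ (a.im / 2) % 4 = 1 ∨ (a.im / 2) % 4 = 2 ∨ (a.im / 2) % 4 = 3 := by
    omega
  rcases h1 with h | h | h | h <;> rw [h] <;> decide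

lemma x2_one : x2 1 = 1 := by decide

lemma x2_per {a b : ZI} (h : a.im % 8 = b.im % 8) : x2 a = x2 b := by
  unfold x2
  have : (a.im / 2) % 4 = (b.im / 2) % 4 := by omega
  rw [this]

lemma x2_eq {a : ZI} {k : ℕ} (h : a.im % 8 = (2 * k : ℤ) % 8) : x2 a = im1 ^ k := by
  unfold x2
  have h1 : (a.im / 2) % 4 = ((k % 4 : ℕ) : ℤ) := by omega
  rw [h1, Int.toNat_natCast]
  exact unit_pow_mod im1_norm (by omega)

lemma x2_mul {a b : ZI} (ha : prim a) (hb : prim b) : x2 (a * b) = x2 a * x2 b := by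
  obtain ⟨a1, a2⟩ := ha
  obtain ⟨b1, b2⟩ := hb
  obtain ⟨s, hs⟩ : ∃ s, a.im = 2 * s := ⟨a.im / 2, by omega⟩
  obtain ⟨u, hu⟩ : ∃ u, b.im = 2 * u := ⟨b.im / 2, by omega⟩
  obtain ⟨k, hk⟩ : ∃ k, a.re = 1 - 2 * s + 4 * k := ⟨(a.re - 1 + 2 * s) / 4, by omega⟩
  obtain ⟨l, hl⟩ : ∃ l, b.re = 1 - 2 * u + 4 * l := ⟨(b.re - 1 + 2 * u) / 4, by omega⟩
  have e1 : (a * b).im % 8 = (2 * (s + u)) % 8 := by
    rw [im_mul', hs, hu, hk, hl]
    have : (1 - 2 * s + 4 * k) * (2 * u) + 2 * s * (1 - 2 * u + 4 * l) =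
        2 * (s + u) + 8 * (k * u + s * l - s * u) := by ring
    rw [this]
    omega
  have hs' : x2 a = im1 ^ (s % 4).toNat := by
    refine x2_eq ?_
    rw [hs]
    have : (0 : ℤ) ≤ s % 4 := by omega
    rw [Int.toNat_of_nonneg this]
    omega
  have hu' : x2 b = im1 ^ (u % 4).toNat := by
    refine x2_eq ?_
    rw [hu]
    have : (0 : ℤ) ≤ u % 4 := by omega
    rw [Int.toNat_of_nonneg this]
    omega
  rw [hs', hu', ← pow_add]
  refine x2_eq ?_
  rw [e1]
  push_cast
  have h1 : (0 : ℤ) ≤ s % 4 := by omega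
  have h2 : (0 : ℤ) ≤ u % 4 := by omega
  rw [Int.toNat_of_nonneg h1, Int.toNat_of_nonneg h2]
  omega

lemma x2_tc (a : ZI) : ‖tc (x2 a)‖ = 1 := unit_tc (x2_norm a)

variable {ι : Type} [DecidableEq ι] {pr : ι → ZI}

open Classical in
/-- the coefficients of the central value -/
noncomputable def cx (pr : ι → ZI) (V : Finset ι) (a : ZI) : ℂ :=
  if prim a then tc (x2 a * c4 pr V on1 a) else 0

/-- the Hecke character -/
noncomputable def X8 (hp : PF pr) (V : Finset ι) : ZI →* ℂ where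
  toFun a := tc (un a) * (starRingEnd ℂ) (tc (x2 (un a * a) * c4 pr V on1 (un a * a)))
  map_one' := by
    rw [un_prim prim_one, one_mul, x2_one, c4_one hp, tc_one, mul_one, tc_one]
    simp
  map_mul' := by
    intro a b
    by_cases ha : a.norm % 2 = 1
    · by_cases hb : b.norm % 2 = 1
      · obtain ⟨u, hu⟩ := exists_Um ha
        obtain ⟨w, hw⟩ := exists_Um hb
        have e : un (a * b) * (a * b) = (un a * a) * (un b * b) := by rw [un_mul]; ring
        have hu' : prim (un a * a) := by rw [un_eq hu]; exact hu.2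
        have hw' : prim (un b * b) := by rw [un_eq hw]; exact hw.2
        rw [e, c4_mul hp, un_mul, x2_mul hu' hw']
        simp only [tc_mul, map_mul]
        ring
      · rw [un_even hb, un_mul, un_even hb, mul_zero, tc_zero]
        ring
    · rw [un_even ha, un_mul, un_even ha, zero_mul, tc_zero]
      ring

lemma X8_apply (hp : PF pr) (V : Finset ι) (a : ZI) :
    X8 hp V a = tc (un a) * (starRingEnd ℂ) (tc (x2 (un a * a) * c4 pr V on1 (un a * a))) := rfl

lemma X8_prim (hp : PF pr) (V : Finset ι) {a : ZI} (ha : prim a) :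
    X8 hp V a = (starRingEnd ℂ) (tc (x2 a * c4 pr V on1 a)) := by
  rw [X8_apply, un_prim ha, tc_one, one_mul, one_mul]

/-- the conductor `8 i D` -/
noncomputable def cn8 (pr : ι → ZI) (V : Finset ι) : ZI := two2 * two2 * DD pr V

/-- `℘(Ω / 2)` -/
noncomputable def e1 (L : PeriodPair) (Ω : ℂ) : ℂ := ℘[L] (Ω / 2)

/-- `℘` at `Ω / (2 + 2 i)` -/
noncomputable def X0 (L : PeriodPair) (Ω : ℂ) : ℂ := ℘[L] (dz Ω)

/-- the function with the character `(-1)^x` -/
noncomputable def Hf (L : PeriodPair) (Ω t : ℂ) : ℂ :=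
  -(℘[L] (t / 2) ^ 2 + 2 * e1 L Ω * ℘[L] (t / 2) - 1) / ℘'[L] (t / 2)

/-- the function with the character `i^(x + y)` -/
noncomputable def Kf (L : PeriodPair) (Ω z : ℂ) : ℂ :=
  (1 + I)⁻¹ * (Hf L Ω (z / (1 + I)) + I * Hf L Ω (z / (1 + I) + (1 - I) * Ω / 2))

/-- the character `i^(x + y)` -/
noncomputable def tI (b : ZI) : ℂ := I ^ (b.re + b.im)

/-- the combinatorial factor: forests with an even number of roots -/
noncomputable def NN {κ : Type} [Fintype κ] [DecidableEq κ] (w : κ → ZMod 2) (e : κ → κ → ZMod 2)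
    (S : Finset κ) : ZMod 2 :=
  (Ff.MM w e S S).det + ∑ r ∈ S, w r * (Ff.MM (fun v => w v + e r v) e (S.erase r) (S.erase r)).det

/-- the right hand side of the recursion -/
noncomputable def RR {κ : Type} [Fintype κ] [DecidableEq κ] (w : κ → ZMod 2) (V : Finset κ) : ZMod 2 :=
  if V.card = 0 then 1 else if V.card = 1 then ∑ v ∈ V, w v else 0

/-- `Laplacian + diag [2/p]` is invertible over the field with two elements -/
def K2 (P : Finset ℕ) : Prop := ∀ y : {p // p ∈ P} → ZMod 2,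
  (∀ q : {p // p ∈ P}, ∑ p : {p // p ∈ P}, (if p = q then 0 else QT.ns p q) * (y p + y q) +
    (if (q : ℕ) % 8 = 5 then 1 else 0) * y q = 0) → ∀ q, y q = 0

end Pool.Agent.E8helper21.Q2
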