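import Pool.Agent.E8helper21.Q2.Stm

/-!
The limit of the regularized sums.
-/

set_option autoImplicit false
set_option linter.unusedSectionVars false

open Filter Complex
open scoped Topology PeriodPair
open H667R3 hiding sq
open Pool.Agent.TH936.CM Pool.Agent.W192.HK

namespace Pool.Agent.E8helper21.Q2

open Pool.Agent.Y699
open H385 (ZI RQ im1 nrm)
open Pool.Agent.H304R3.HK (tc HC LH)
open Pool.Agent.W164.RC (tc_mul tc_star two2 prim_iff_dvd unit_norm unit_cases)
open Pool.Agent.H304R2.EC.A1 (prim prim_mul prim_cancel prim_one prim_norm_odd prim_star eq_one_of_prim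
  norm_def' re_mul' im_mul' eq_of_dvd prim_ne_zero exists_prim)

lemma cop_two2 {D : ZI} (hD : prim D) : IsCoprime two2 D := by
  rw [two2_eq]
  refine IsCoprime.mul_left (IsCoprime.pow_left ?_) ?_
  · refine (pi1_prime.irreducible.coprime_iff_not_dvd).2 ?_
    exact (norm_odd_iff D).1 (prim_norm_odd hD)
  · exact ⟨⟨0, 1⟩, 0, by
      rw [zero_mul, add_zero]
      decide⟩

/-- the partition -/
noncomputable def prt8 {D : ZI} (hD : prim D) : RQ D × ZI ≃ ZI :=
  Equiv.ofBijective (fun p => two2 * p.1.out + D * p.2) ⟨by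
    rintro ⟨a, s⟩ ⟨b, t⟩ hab
    have h0 : two2 * a.out + D * s = two2 * b.out + D * t := hab
    have h1 : D ∣ two2 * (a.out - b.out) := ⟨t - s, by linear_combination h0⟩
    have h2 : D ∣ a.out - b.out := (cop_two2 hD).symm.dvd_of_dvd_mul_left h1
    have h3 : a = b := by
      rw [← Ideal.Quotient.mk_out a, ← Ideal.Quotient.mk_out b, Ideal.Quotient.eq,
        Ideal.mem_span_singleton]
      exact h2
    subst h3
    have h4 : D * s = D * t := by linear_combination h0
    rw [mul_left_cancel₀ (prim_ne_zero hD) h4], by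
    intro t
    obtain ⟨u, w, huw⟩ := cop_two2 hD
    set q : RQ D := Ideal.Quotient.mk (Ideal.span {D}) (u * t) with hq
    obtain ⟨c, hc⟩ : D ∣ q.out - u * t := by
      rw [← Ideal.mem_span_singleton, ← Ideal.Quotient.eq, Ideal.Quotient.mk_out]
    refine ⟨(q, w * t - two2 * c), ?_⟩
    show two2 * q.out + D * (w * t - two2 * c) = t
    linear_combination two2 * hc + t * huw⟩

lemma prt8_apply {D : ZI} (hD : prim D) (p : RQ D × ZI) :
    prt8 hD p = two2 * p.1.out + D * p.2 := rfl

lemma x2_shift (b : ZI) : tc (x2 (1 + two2 * b)) = tI b ∧ prim (1 + two2 * b) := by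
  have e1 : (1 + two2 * b).im = 2 * (b.re + b.im) := by
    rw [Zsqrtd.im_add, im_mul']
    show (0 : ℤ) + (2 * b.im + 2 * b.re) = _
    ring
  have e2 : (1 + two2 * b).re = 1 + 2 * (b.re - b.im) := by
    rw [Zsqrtd.re_add, re_mul']
    show (1 : ℤ) + (2 * b.re - 2 * b.im) = _
    ring
  refine ⟨?_, ?_⟩
  · set n := ((b.re + b.im) % 4).toNat with hn
    have h0 : (0 : ℤ) ≤ (b.re + b.im) % 4 := by omega
    have h1 : (n : ℤ) = (b.re + b.im) % 4 := by rw [hn, Int.toNat_of_nonneg h0]
    rw [x2_eq (k := n) (by rw [e1]; omega), tc_pow, tc_im1]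
    unfold tI
    obtain ⟨k, hk⟩ : ∃ k : ℤ, b.re + b.im = n + 4 * k := ⟨(b.re + b.im) / 4, by omega⟩
    rw [hk, zpow_add₀ I_ne_zero, zpow_mul]
    have : (I : ℂ) ^ (4 : ℤ) = 1 := by
      have := I_pow_four
      exact_mod_cast this
    rw [this, one_zpow, mul_one, zpow_natCast]
  · unfold prim
    rw [e1, e2]
    omega

lemma x2_shift8 (a q : ZI) : x2 (a + two2 * (two2 * q)) = x2 a := by
  apply x2_per
  have e : (two2 * (two2 * q)).im = 8 * q.re := by
    rw [im_mul', im_mul', re_mul']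
    show (2 : ℤ) * (2 * q.im + 2 * q.re) + 2 * (2 * q.re - 2 * q.im) = _
    ring
  rw [Zsqrtd.im_add, e]
  omega

/-- **the limit** -/
theorem t_LIM (h : S_LK) : S_LIM := by
  classical
  intro L Ω hG D hD _ F hper
  have hD0 : D ≠ 0 := prim_ne_zero hD
  have hDc := tc_ne hD0
  have h2c := tc_ne two2_ne
  have hΩ := hG.lat.ne
  set f : ZI → ℂ := fun a => if prim a then tc (x2 a) * F a else 0 with hf
  set c : ℂ := tc D * tc two2 / Ω with hc
  have hc0 : c ≠ 0 := div_ne_zero (mul_ne_zero hDc h2c) hΩ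
  have hcn : 0 < Complex.normSq c := Complex.normSq_pos.2 hc0
  have hinj : Function.Injective (fun t : ZI => D + two2 * t) := by
    intro a b hab
    have h1 : D + two2 * a = D + two2 * b := hab
    exact mul_left_cancel₀ two2_ne (by linear_combination h1 : two2 * a = two2 * b)
  -- bounded
  have hFb : ∃ C : ℝ, ∀ a, ‖f a‖ ≤ C := by
    refine ⟨∑ q : RQ D, ‖F q.out‖, fun a => ?_⟩
    have h1 : F a = F (Ideal.Quotient.mk (Ideal.span {D}) a).out := by
      apply hper
      rw [← Ideal.mem_span_singleton, ← Ideal.Quotient.eq, Ideal.Quotient.mk_out]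
    rw [hf]
    show ‖(if prim a then tc (x2 a) * F a else 0)‖ ≤ _
    split_ifs
    · rw [norm_mul, x2_tc, one_mul, h1]
      exact Finset.single_le_sum (f := fun q : RQ D => ‖F q.out‖) (fun _ _ => norm_nonneg _)
        (Finset.mem_univ _)
    · rw [norm_zero]
      exact Finset.sum_nonneg fun _ _ => norm_nonneg _
  obtain ⟨C, hC⟩ := hFb
  have hterm : ∀ p : RQ D × ZI, f (D + two2 * prt8 hD p) =
      tc (x2 D) * F (two2 * (two2 * p.1.out)) * tI p.2 := by
    rintro ⟨q, b⟩
    rw [prt8_apply]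
    have e1 : D + two2 * (two2 * q.out + D * b) = D * (1 + two2 * b) + two2 * (two2 * q.out) := by
      ring
    obtain ⟨s1, s2⟩ := x2_shift b
    have hp : prim (D + two2 * (two2 * q.out + D * b)) := by
      rw [prim_iff_dvd]
      have h2 := (prim_iff_dvd _).1 hD
      have e : D + two2 * (two2 * q.out + D * b) - 1 = (D - 1) + two2 * (two2 * q.out + D * b) := by
        ring
      rw [e]
      exact dvd_add h2 (dvd_mul_right _ _)
    rw [hf]
    show (if prim (D + two2 * (two2 * q.out + D * b)) then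
      tc (x2 (D + two2 * (two2 * q.out + D * b))) * F (D + two2 * (two2 * q.out + D * b)) else 0) = _
    rw [if_pos hp]
    have e2 : F (D + two2 * (two2 * q.out + D * b)) = F (two2 * (two2 * q.out)) := by
      apply hper
      exact ⟨1 + two2 * b, by ring⟩
    rw [e2, e1, x2_shift8, x2_mul hD s2, tc_mul, s1]
    ring
  have e1 : ∀ δ : ℝ, RS f δ = ∑' t : ZI, f (D + two2 * t) * fd δ (tc (D + two2 * t)) := by
    intro δ
    unfold RS
    rw [← hinj.tsum_eq]
    intro a ha
    rw [Function.mem_support] at ha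
    by_contra hcc
    apply ha
    have : f a = 0 := by
      rw [hf]
      show (if prim a then tc (x2 a) * F a else 0) = 0
      rw [if_neg]
      intro h1
      apply hcc
      have h3 := (prim_iff_dvd _).1 h1
      have h4 := (prim_iff_dvd _).1 hD
      obtain ⟨c, hc'⟩ := dvd_sub h3 h4
      exact ⟨c, by
        show D + two2 * c = a
        rw [← hc']
        ring⟩
    rw [this, zero_mul]
  have key : ∀ δ : ℝ, 0 < δ → RS f δ = ∑ q : RQ D, tc (x2 D) * F (two2 * (two2 * q.out)) * c⁻¹ *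
      ∑' b : ZI, tI b * fd (δ * Complex.normSq c) (dz Ω + zq Ω D (two2 * q.out) + Ω * tc b) := by
    intro δ hδ
    have hs1 : Summable (fun t : ZI => f (D + two2 * t) * fd δ (tc (D + two2 * t))) :=
      (summ_bd hG.lat hδ hC).comp_injective hinj
    have hs2 : Summable (fun p : RQ D × ZI =>
        f (D + two2 * prt8 hD p) * fd δ (tc (D + two2 * prt8 hD p))) :=
      ((prt8 hD).summable_iff (f := fun t => f (D + two2 * t) * fd δ (tc (D + two2 * t)))).2 hs1
    rw [e1, ← (prt8 hD).tsum_eq, hs2.tsum_prod' (fun q => hs2.prod_factor q), tsum_fintype]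
    refine Finset.sum_congr (by ext; simp) fun q _ => ?_
    rw [← tsum_mul_left]
    refine tsum_congr fun b => ?_
    rw [hterm (q, b)]
    have e3 : tc (D + two2 * prt8 hD (q, b)) =
        c * (dz Ω + zq Ω D (two2 * q.out) + Ω * tc b) := by
      rw [prt8_apply, tc_add, tc_mul, tc_add, tc_mul, tc_mul, dz_eq, tc_one, hc]
      unfold zq
      rw [tc_mul]
      field_simp
      ring
    rw [e3, fd_mul]
    ring
  have hlim : Tendsto (fun δ : ℝ => ∑ q : RQ D, tc (x2 D) * F (two2 * (two2 * q.out)) * c⁻¹ *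
      ∑' b : ZI, tI b * fd (δ * Complex.normSq c) (dz Ω + zq Ω D (two2 * q.out) + Ω * tc b))
      (𝓝[>] 0) (𝓝 (∑ q : RQ D, tc (x2 D) * F (two2 * (two2 * q.out)) * c⁻¹ *
        Kf L Ω (dz Ω + zq Ω D (two2 * q.out)))) := by
    refine tendsto_finsetSum Finset.univ fun q _ => ?_
    refine Tendsto.const_mul _ ?_
    exact tendsto_scale (h L Ω hG _ (dz_add hG hD (two2 * q.out))) hcn
  have e5 : tc (x2 D) * Ω / (tc D * tc two2) *
      ∑ q : RQ D, F (two2 * (two2 * q.out)) * Kf L Ω (dz Ω + zq Ω D (two2 * q.out)) =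
      ∑ q : RQ D, tc (x2 D) * F (two2 * (two2 * q.out)) * c⁻¹ *
        Kf L Ω (dz Ω + zq Ω D (two2 * q.out)) := by
    rw [Finset.mul_sum]
    refine Finset.sum_congr rfl fun q _ => ?_
    rw [hc, inv_div]
    ring
  rw [e5]
  refine hlim.congr' ?_
  filter_upwards [self_mem_nhdsWithin] with δ (hδ : 0 < δ)
  rw [key δ hδ]

end Pool.Agent.E8helper21.Q2
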