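import Pool.Agent.E8helper21.Q2.Lim

/-!
The sum over the divisors of the sums with the primes of the complement removed.
-/

set_option autoImplicit false
set_option linter.unusedSectionVars false

open Filter Complex
open scoped Topology PeriodPair
open H667R3 hiding sq
open Pool.Agent.TH936.CM Pool.Agent.W192.HK

namespace Pool.Agent.E8helper21.Q2

open Pool.Agent.Y699
open H385 (ZI RQ im1 nrm)
open Pool.Agent.H304R3.HK (tc HC LH)
open Pool.Agent.W164.RC (tc_mul tc_star two2 prim_iff_dvd unit_norm unit_cases)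
open Pool.Agent.H304R2.EC.A1 (prim prim_mul prim_cancel prim_one prim_norm_odd prim_star eq_one_of_prim
  norm_def' re_mul' im_mul' eq_of_dvd prim_ne_zero exists_prim)

variable {L : PeriodPair} {Ω : ℂ} {ι : Type} [DecidableEq ι] {pr : ι → ZI}

open Classical in
/-- the coefficients with the primes of `T` removed -/
noncomputable def cxT (pr : ι → ZI) (S T : Finset ι) (a : ZI) : ℂ :=
  if prim a ∧ ∀ i ∈ T, ¬ pr i ∣ a then tc (x2 a * c4 pr S on1 a) else 0

/-- the value of the character -/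
noncomputable def cs (pr : ι → ZI) (S : Finset ι) (i : ι) : ℂ := tc (x2 (pr i) * c4 pr S on1 (pr i))

lemma cxT_empty (S : Finset ι) : cxT pr S ∅ = cx pr S := by
  classical
  funext a
  unfold cxT cx
  refine if_congr ?_ rfl rfl
  constructor
  · exact fun h => h.1
  · exact fun h => ⟨h, fun i hi => absurd hi (Finset.notMem_empty i)⟩

lemma cxT_bd (hp : PF pr) (S T : Finset ι) (a : ZI) : ‖cxT pr S T a‖ ≤ 1 := by
  unfold cxT
  split_ifs
  · rw [tc_mul, norm_mul, x2_tc, one_mul]
    exact c4_bd hp S on1 a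
  · simp

lemma RSx_insert (h : IsLat L RG Ω) (hp : PF pr) (S T : Finset ι) (i : ι) (hi : i ∉ T) {δ : ℝ}
    (hδ : 0 < δ) : RS (cxT pr S (insert i T)) δ = RS (cxT pr S T) δ -
      cs pr S i / tc (pr i) * RS (cxT pr S T) (δ * Complex.normSq (tc (pr i))) := by
  classical
  have e1 : (fun b => cxT pr S T (pr i * b)) = fun b => cs pr S i * cxT pr S T b := by
    funext b
    unfold cxT cs
    have h1 : (prim (pr i * b) ∧ ∀ j ∈ T, ¬ pr j ∣ pr i * b) ↔ (prim b ∧ ∀ j ∈ T, ¬ pr j ∣ b) := by
      rw [prim_mul_iff (hp.pp i).prm]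
      refine and_congr_right fun _ => forall₂_congr fun j hj => ?_
      rw [hp.dvd_mul (fun h' : i = j => hi (by rw [h']; exact hj))]
    by_cases h2 : prim b ∧ ∀ j ∈ T, ¬ pr j ∣ b
    · rw [if_pos h2, if_pos (h1.2 h2), c4_mul hp, x2_mul (hp.pp i).prm h2.1]
      simp only [tc_mul]
      ring
    · rw [if_neg h2, if_neg (fun h => h2 (h1.1 h)), mul_zero]
  have e2 := RS_dvd (hp.pp i).ne (cxT pr S T) δ
  rw [e1] at e2
  have e3 : RS (fun b => cs pr S i * cxT pr S T b) (δ * Complex.normSq (tc (pr i))) =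
      cs pr S i * RS (cxT pr S T) (δ * Complex.normSq (tc (pr i))) := by
    unfold RS
    rw [← tsum_mul_left]
    exact tsum_congr fun b => by ring
  rw [e3] at e2
  have e4 : RS (cxT pr S (insert i T)) δ = RS (cxT pr S T) δ -
      RS (fun a => if pr i ∣ a then cxT pr S T a else 0) δ := by
    have s1 := summ_bd h hδ (cxT_bd hp S T)
    have s2 := summ_bd h hδ (f := fun a => if pr i ∣ a then cxT pr S T a else 0) (C := 1) (by
      intro a
      split_ifs
      · exact cxT_bd hp S T a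
      · simp)
    unfold RS
    rw [← s1.tsum_sub s2]
    refine tsum_congr fun a => ?_
    rw [← sub_mul]
    congr 1
    unfold cxT
    by_cases h1 : pr i ∣ a
    · rw [if_neg, if_pos h1, sub_self]
      rintro ⟨-, h2⟩
      exact h2 i (Finset.mem_insert_self _ _) h1
    · rw [if_neg h1, sub_zero]
      refine if_congr (and_congr_right fun _ => ?_) rfl rfl
      constructor
      · intro h2 j hj
        exact h2 j (Finset.mem_insert_of_mem hj)
      · intro h2 j hj
        rcases Finset.mem_insert.1 hj with rfl | hj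
        · exact h1
        · exact h2 j hj
  rw [e4, e2]
  ring

theorem lim_cxT (h : IsLat L RG Ω) (hp : PF pr) (S : Finset ι) {l : ℂ}
    (hl : Tendsto (RS (cx pr S)) (𝓝[>] 0) (𝓝 l)) (T : Finset ι) :
    Tendsto (RS (cxT pr S T)) (𝓝[>] 0) (𝓝 (l * ∏ i ∈ T, (1 - cs pr S i / tc (pr i)))) := by
  induction T using Finset.induction_on with
  | empty => rw [Finset.prod_empty, mul_one, cxT_empty]; exact hl
  | insert i T hi ih =>
    have hn : 0 < Complex.normSq (tc (pr i)) := Complex.normSq_pos.2 (tc_ne (hp.pp i).ne)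
    have h1 := ih.sub ((tendsto_scale ih hn).const_mul (cs pr S i / tc (pr i)))
    rw [Finset.prod_insert hi]
    have e : l * ∏ i ∈ T, (1 - cs pr S i / tc (pr i)) - cs pr S i /
        tc (pr i) * (l * ∏ i ∈ T, (1 - cs pr S i / tc (pr i))) =
        l * ((1 - cs pr S i / tc (pr i)) *
          ∏ i ∈ T, (1 - cs pr S i / tc (pr i))) := by ring
    rw [e] at h1
    refine h1.congr' ?_
    filter_upwards [self_mem_nhdsWithin] with δ (hδ : 0 < δ)
    exact (RSx_insert h hp S T i hi hδ).symm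

open Classical in
/-- the function on the residues -/
noncomputable def FV (pr : ι → ZI) (V : Finset ι) (a : ZI) : ℂ :=
  if ∀ i ∈ V, ¬ pr i ∣ a then ∏ i ∈ V, (1 + tc (q4 (pr i) a)) else 0

lemma FV_per (hp : PF pr) (V : Finset ι) {a b : ZI} (hab : DD pr V ∣ a - b) :
    FV pr V a = FV pr V b := by
  classical
  unfold FV
  have h1 : (∀ i ∈ V, ¬ pr i ∣ a) ↔ (∀ i ∈ V, ¬ pr i ∣ b) := by
    refine forall₂_congr fun i hi => ?_
    have h2 : pr i ∣ a - b := (dvd_DD hi).trans hab
    constructor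
    · intro h3 h4
      exact h3 (by have := dvd_add h2 h4; rwa [sub_add_cancel] at this)
    · intro h3 h4
      exact h3 (by have := dvd_sub h4 h2; rwa [sub_sub_cancel] at this)
  have h5 : ∏ i ∈ V, (1 + tc (q4 (pr i) a)) = ∏ i ∈ V, (1 + tc (q4 (pr i) b)) :=
    Finset.prod_congr rfl fun i hi => by rw [q4_per (hp.pp i) ((dvd_DD hi).trans hab)]
  rw [h5]
  exact if_congr h1 rfl rfl

theorem sum_cxT (V : Finset ι) (hp : PF pr) (a : ZI) :
    ∑ S ∈ V.powerset, cxT pr S (V \ S) a =
      (open Classical in if prim a then tc (x2 a) * FV pr V a else 0) := by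
  classical
  by_cases ha : prim a
  · rw [if_pos ha]
    by_cases hc : ∃ i ∈ V, pr i ∣ a
    · obtain ⟨i, hi, hia⟩ := hc
      have h1 : FV pr V a = 0 := by
        unfold FV
        rw [if_neg]
        intro h2
        exact h2 i hi hia
      rw [h1, mul_zero]
      refine Finset.sum_eq_zero fun S _ => ?_
      by_cases hS : i ∈ S
      · unfold cxT
        rw [c4_zero _ hS hia]
        simp [tc_zero]
      · unfold cxT
        rw [if_neg]
        rintro ⟨-, h2⟩
        exact h2 i (Finset.mem_sdiff.2 ⟨hi, hS⟩) hia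
    · push Not at hc
      have h1 : ∀ S ∈ V.powerset, cxT pr S (V \ S) a = tc (x2 a) * ∏ i ∈ S, tc (q4 (pr i) a) := by
        intro S _
        unfold cxT
        rw [if_pos ⟨ha, fun i hi => hc i (Finset.mem_sdiff.1 hi).1⟩, c4_one_exp hp, tc_mul, tc_prod]
      rw [Finset.sum_congr rfl h1, ← Finset.mul_sum, ← Finset.prod_one_add]
      unfold FV
      rw [if_pos hc]
  · rw [if_neg ha]
    unfold cxT
    refine Finset.sum_eq_zero fun S _ => ?_
    rw [if_neg (fun h => ha h.1)]

/-- existence of the limits -/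
theorem exists_M (h : S_LIM) (hG : GLat L Ω) (hp : PF pr) (S : Finset ι) [Fintype (RQ (DD pr S))] :
    Tendsto (RS (cx pr S)) (𝓝[>] 0) (𝓝 (tc (x2 (DD pr S)) * Ω / (tc (DD pr S) * tc two2) *
      ∑ q : RQ (DD pr S), tc (c4 pr S on1 (two2 * (two2 * q.out))) *
        Kf L Ω (dz Ω + zq Ω (DD pr S) (two2 * q.out)))) := by
  have h1 := h L Ω hG (DD pr S) (DD_prim hp S) (fun a => tc (c4 pr S on1 a)) (fun a b hab => by
    rw [c4_per hp S on1 hab])
  have e : (open Classical in fun a => if prim a then tc (x2 a) * tc (c4 pr S on1 a) else 0) =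
      cx pr S := by
    funext a
    unfold cx
    rw [tc_mul]
  rw [e] at h1
  exact h1

/-- **the relation** -/
theorem rel_T (h : S_LIM) (hG : GLat L Ω) (hp : PF pr) {M : Finset ι → ℂ}
    (hM : ∀ S, Tendsto (RS (cx pr S)) (𝓝[>] 0) (𝓝 (M S))) (V : Finset ι)
    [Fintype (RQ (DD pr V))] :
    ∑ S ∈ V.powerset, M S * ∏ i ∈ V \ S, (1 - cs pr S i / tc (pr i)) =
      tc (x2 (DD pr V)) * Ω / (tc (DD pr V) * tc two2) *
        ∑ q : RQ (DD pr V), FV pr V (two2 * (two2 * q.out)) *
          Kf L Ω (dz Ω + zq Ω (DD pr V) (two2 * q.out)) := by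
  classical
  have h1 := h L Ω hG (DD pr V) (DD_prim hp V) (FV pr V) (fun a b hab => FV_per hp V hab)
  have h2 : Tendsto (fun δ : ℝ => ∑ S ∈ V.powerset, RS (cxT pr S (V \ S)) δ) (𝓝[>] 0)
      (𝓝 (∑ S ∈ V.powerset, M S * ∏ i ∈ V \ S, (1 - cs pr S i / tc (pr i)))) :=
    tendsto_finsetSum _ fun S _ => lim_cxT hG.lat hp S (hM S) (V \ S)
  refine tendsto_nhds_unique h2 (h1.congr' ?_)
  filter_upwards [self_mem_nhdsWithin] with δ (hδ : 0 < δ)
  unfold RS
  rw [← Summable.tsum_finsetSum (fun S _ => summ_bd hG.lat hδ (cxT_bd hp S (V \ S)))]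
  refine tsum_congr fun a => ?_
  rw [← Finset.sum_mul, sum_cxT V hp a]

end Pool.Agent.E8helper21.Q2
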