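import Pool.Agent.E8helper21.Q2.Rec1

/-!
Half-systems of residues and the parity of the number of the nonresidues.
-/

set_option autoImplicit false
set_option linter.unusedSectionVars false

open Filter Complex
open scoped Topology PeriodPair
open H667R3 hiding sq
open Pool.Agent.TH936.CM Pool.Agent.W192.HK

namespace Pool.Agent.E8helper21.Q2

open Pool.Agent.Y699
open H385 (ZI RQ im1 nrm)
open Pool.Agent.H304R3.HK (tc HC LH)
open Pool.Agent.W164.RC (tc_mul tc_star two2 prim_iff_dvd unit_norm unit_cases)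
open Pool.Agent.H304R2.EC.A1 (prim prim_mul prim_cancel prim_one prim_norm_odd prim_star eq_one_of_prim
  norm_def' re_mul' im_mul' eq_of_dvd prim_ne_zero exists_prim)

variable {L : PeriodPair} {Ω : ℂ} {ι : Type} [DecidableEq ι] {pr : ι → ZI}

/-- the quotient of `1 + y` by `1 + i` -/
def zf (y : ZI) : ZI :=
  if y = 1 then ⟨1, -1⟩ else if y = im1 then 1 else if y = -im1 then ⟨0, -1⟩ else 0

lemma zf_eq {y : ZI} (h : y.norm = 1) : 1 + y = pi1 * zf y ∧
    pi1 ∣ zf y - (if y ^ 2 = -1 then 1 else 0) := by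
  have h1 : Val4 y := by
    unfold Val4
    right
    exact h
  rcases h1.list with rfl | rfl | rfl | rfl | rfl
  · exact absurd h (by decide)
  · exact ⟨by decide, ⟨⟨0, -1⟩, by decide⟩⟩
  · exact ⟨by decide, ⟨0, by decide⟩⟩
  · exact ⟨by decide, ⟨0, by decide⟩⟩
  · exact ⟨by decide, ⟨-1, by decide⟩⟩

/-- the indicator of the nonresidues -/
noncomputable def gz (pr : ι → ZI) (V : Finset ι) (a : ZI) : ZI :=
  ∏ i ∈ V, (if qr (pr i) a = -1 then 1 else 0)

/-- the indicator of the nonresidues modulo two -/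
noncomputable def gm (pr : ι → ZI) (V : Finset ι) (a : ZI) : ZMod 2 :=
  ∏ i ∈ V, (if qr (pr i) a = -1 then 1 else 0)

lemma tc_gz (V : Finset ι) (a : ZI) : tc (gz pr V a) = uu (gm pr V a) := by
  unfold gz gm
  rw [tc_prod, uu_prod]
  refine Finset.prod_congr rfl fun i _ => ?_
  split_ifs
  · rw [tc_one, uu_one]
  · rw [tc_zero, uu_zero]

open Classical in
/-- the quotient of the function on the residues by the power of `1 + i` -/
noncomputable def Zf (pr : ι → ZI) (V : Finset ι) (a : ZI) : ZI :=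
  if ∀ i ∈ V, ¬ pr i ∣ a then ∏ i ∈ V, zf (q4 (pr i) a) else 0

lemma FV_eq (hp : PF pr) (V : Finset ι) (a : ZI) :
    FV pr V a = (1 + I) ^ V.card * tc (Zf pr V a) := by
  classical
  unfold FV Zf
  split_ifs with h
  · rw [tc_prod, ← Finset.prod_const, ← Finset.prod_mul_distrib]
    refine Finset.prod_congr rfl fun i hi => ?_
    have h1 := congrArg tc (zf_eq (q4_norm (hp.pp i) (h i hi))).1
    rw [tc_add, tc_one, tc_mul, tc_pi1] at h1
    exact h1
  · rw [tc_zero, mul_zero]

lemma prod_cong {M : Finset ι} {f g : ι → ZI} (h : ∀ i ∈ M, pi1 ∣ f i - g i) :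
    pi1 ∣ ∏ i ∈ M, f i - ∏ i ∈ M, g i := by
  induction M using Finset.induction_on with
  | empty => simp
  | insert a M ha ih =>
    rw [Finset.prod_insert ha, Finset.prod_insert ha]
    have h1 := h a (Finset.mem_insert_self _ _)
    have h2 := ih fun i hi => h i (Finset.mem_insert_of_mem hi)
    have e : f a * ∏ i ∈ M, f i - g a * ∏ i ∈ M, g i =
        (f a - g a) * ∏ i ∈ M, f i + g a * (∏ i ∈ M, f i - ∏ i ∈ M, g i) := by ring
    rw [e]
    exact dvd_add (h1.mul_right _) (h2.mul_left _)

lemma Zf_cong (hp : PF pr) (V : Finset ι) (a : ZI) : pi1 ∣ Zf pr V a - gz pr V a := by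
  classical
  unfold Zf gz
  split_ifs with h
  · refine prod_cong fun i hi => ?_
    have h1 := (zf_eq (q4_norm (hp.pp i) (h i hi))).2
    have h2 : (q4 (pr i) a ^ 2 = -1) ↔ (qr (pr i) a = -1) := by
      rw [q4_sq (hp.pp i)]
      constructor
      · intro h3
        have h4 : ((qr (pr i) a : ℤ) : ZI) = ((-1 : ℤ) : ZI) := by rw [h3]; simp
        exact Int.cast_injective h4
      · intro h3
        rw [h3]; simp
    simp only [h2] at h1
    exact h1
  · push Not at h
    obtain ⟨i, hi, hd⟩ := h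
    rw [Finset.prod_eq_zero hi, sub_self]
    · exact dvd_zero _
    · rw [if_neg]
      rw [qr_zero_iff.2 hd]
      norm_num

lemma qr_neg' {π : ZI} (h : PP π) (a : ZI) : qr π (-a) = qr π a := by
  have e1 : -a = (im1 * im1) * a := by
    have : im1 * im1 = (-1 : ZI) := by decide
    rw [this]; ring
  have hi : ¬ π ∣ im1 := not_dvd_unit h im1_norm
  rw [e1, qr_mul h, qr_mul h, qr_sq hi, one_mul]

lemma gm_neg (hp : PF pr) (V : Finset ι) (a : ZI) : gm pr V (-a) = gm pr V a := by
  unfold gm
  refine Finset.prod_congr rfl fun i _ => ?_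
  rw [qr_neg' (hp.pp i)]

lemma gz_neg (hp : PF pr) (V : Finset ι) (a : ZI) : gz pr V (-a) = gz pr V a := by
  unfold gz
  refine Finset.prod_congr rfl fun i _ => ?_
  rw [qr_neg' (hp.pp i)]

lemma gm_per (V : Finset ι) {a b : ZI} (h : DD pr V ∣ a - b) : gm pr V a = gm pr V b := by
  unfold gm
  refine Finset.prod_congr rfl fun i hi => ?_
  rw [qr_per ((dvd_DD hi).trans h)]

lemma gm_two2 (hp : PF pr) (V : Finset ι) (a : ZI) :
    gm pr V (two2 * (two2 * a)) = gm pr V a := by
  unfold gm
  refine Finset.prod_congr rfl fun i _ => ?_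
  have h2 := not_dvd_two2 (hp.pp i)
  rw [qr_mul (hp.pp i), qr_mul (hp.pp i), ← mul_assoc, qr_sq h2, one_mul]

lemma Zf_diff (hp : PF pr) (V : Finset ι) (a : ZI) : pi1 ∣ Zf pr V (-a) - Zf pr V a := by
  have h1 := Zf_cong hp V a
  have h2 := Zf_cong hp V (-a)
  rw [gz_neg hp] at h2
  have := dvd_sub h2 h1
  have e : Zf pr V (-a) - gz pr V a - (Zf pr V a - gz pr V a) = Zf pr V (-a) - Zf pr V a := by ring
  rwa [e] at this

/-! ### half-systems -/

section half

variable {D : ZI} (hD : prim D) [Fintype (RQ D)]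

/-- the numbering -/
noncomputable def eq' (D : ZI) [Fintype (RQ D)] : RQ D → ℕ := fun q => (Fintype.equivFin (RQ D) q : ℕ)

lemma eq'_inj : Function.Injective (eq' D) := fun a b h =>
  (Fintype.equivFin (RQ D)).injective (Fin.ext h)

include hD in
lemma two_cop : IsCoprime (2 : ZI) D := by
  have h1 := cop_two2 hD
  have e : two2 = 2 * pi1 := by decide
  rw [e] at h1
  exact h1.of_mul_left_left

include hD in
lemma neg_eq {q : RQ D} (h : q = -q) : q = 0 := by
  have h1 : (Ideal.Quotient.mk (Ideal.span {D})) (2 * q.out) = 0 := by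
    rw [map_mul, Ideal.Quotient.mk_out]
    have : (Ideal.Quotient.mk (Ideal.span {D})) 2 = 2 := map_ofNat _ 2
    rw [this]
    have h2 : q + q = 0 := by
      nth_rewrite 1 [h]
      exact neg_add_cancel q
    rw [two_mul]
    exact h2
  rw [Ideal.Quotient.eq_zero_iff_mem, Ideal.mem_span_singleton] at h1
  have h2 := (two_cop hD).symm.dvd_of_dvd_mul_left h1
  rw [← Ideal.mem_span_singleton, ← Ideal.Quotient.eq_zero_iff_mem, Ideal.Quotient.mk_out] at h2
  exact h2

include hD in
lemma half_sum {A : Type*} [AddCommMonoid A] (f : RQ D → A) (h0 : f 0 = 0) :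
    ∑ q, f q = ∑ q, (if eq' D q < eq' D (-q) then f q + f (-q) else 0) := by
  have h1 : ∀ q, f q = (if eq' D q < eq' D (-q) then f q else 0) +
      (if eq' D (-q) < eq' D q then f q else 0) := by
    intro q
    rcases lt_trichotomy (eq' D q) (eq' D (-q)) with h | h | h
    · rw [if_pos h, if_neg (not_lt.2 h.le), add_zero]
    · have h2 := neg_eq hD (eq'_inj h)
      rw [if_neg (by omega), if_neg (by omega), h2, h0, add_zero]
    · rw [if_neg (not_lt.2 h.le), if_pos h, zero_add]
  have h2 : ∑ q, (if eq' D (-q) < eq' D q then f q else 0) =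
      ∑ q, (if eq' D q < eq' D (-q) then f (-q) else 0) := by
    rw [← Equiv.sum_comp (Equiv.neg (RQ D))]
    refine Finset.sum_congr rfl fun q _ => ?_
    rw [Equiv.neg_apply, neg_neg]
  rw [Finset.sum_congr rfl fun q _ => h1 q, Finset.sum_add_distrib, h2, ← Finset.sum_add_distrib]
  refine Finset.sum_congr rfl fun q _ => ?_
  split_ifs
  · rfl
  · rw [add_zero]

end half

/-! ### the parity -/

lemma half_two (hp : PF pr) {V : Finset ι} (hV : 2 ≤ V.card) [Fintype (RQ (DD pr V))] :
    ∑ q : RQ (DD pr V), (if eq' (DD pr V) q < eq' (DD pr V) (-q) then gm pr V q.out else 0) = 0 := by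
  classical
  have hD := DD_prim hp V
  obtain ⟨r, hr, j, hj, hrj⟩ := Finset.one_lt_card.1 (by omega : 1 < V.card)
  have hDr : DD pr V = pr r * DD pr (V.erase r) := by
    unfold DD
    exact (Finset.mul_prod_erase V pr hr).symm
  have hcop : IsCoprime (pr r) (DD pr (V.erase r)) := by
    unfold DD
    rw [IsCoprime.prod_right_iff]
    intro k hk
    exact (hp.pp r).cop (hp.pp k) fun h => (Finset.mem_erase.1 hk).1 (hp.inj h).symm
  obtain ⟨a, b, hab⟩ := hcop
  set E := DD pr (V.erase r) with hE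
  set s : ZI := 1 - 2 * (b * E) with hs
  have hs2 : DD pr V ∣ s * s - 1 := ⟨-(4 * a * b), by
    rw [hs, hDr]
    linear_combination (4 * b * E) * hab⟩
  have hsr : pr r ∣ s + 1 := ⟨2 * a, by rw [hs]; linear_combination (-2) * hab⟩
  have hsj : ∀ k ∈ V, k ≠ r → pr k ∣ s - 1 := by
    intro k hk hkr
    have h1 : pr k ∣ E := dvd_DD (Finset.mem_erase.2 ⟨hkr, hk⟩)
    obtain ⟨c, hc⟩ := h1
    exact ⟨-(2 * b * c), by rw [hs, hc]; ring⟩
  set σ : RQ (DD pr V) := Ideal.Quotient.mk (Ideal.span {DD pr V}) s with hσ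
  have hσ2 : σ * σ = 1 := by
    rw [hσ, ← map_mul, ← map_one (Ideal.Quotient.mk (Ideal.span {DD pr V})), Ideal.Quotient.eq,
      Ideal.mem_span_singleton]
    exact hs2
  have hqs : ∀ k ∈ V, qr (pr k) s = 1 := by
    intro k hk
    by_cases hkr : k = r
    · subst hkr
      have h1 : pr k ∣ s - (-1) := by rw [sub_neg_eq_add]; exact hsr
      rw [qr_per h1, qr_neg' (hp.pp k), qr_one (hp.pp k)]
    · rw [qr_per (hsj k hk hkr), qr_one (hp.pp k)]
  have hgs : ∀ q : RQ (DD pr V), gm pr V (σ * q).out = gm pr V q.out := by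
    intro q
    rw [gm_per V (out_mul (DD pr V) s q)]
    unfold gm
    refine Finset.prod_congr rfl fun k hk => ?_
    rw [qr_mul (hp.pp k), hqs k hk, one_mul]
  have hgn : ∀ q : RQ (DD pr V), gm pr V (-q).out = gm pr V q.out := by
    intro q
    rw [gm_per V (out_neg (DD pr V) q), gm_neg hp]
  have hnd : ∀ q : RQ (DD pr V), gm pr V q.out ≠ 0 → ∀ k ∈ V, ¬ pr k ∣ q.out := by
    intro q hq k hk hd
    apply hq
    unfold gm
    refine Finset.prod_eq_zero hk ?_
    rw [if_neg]
    rw [qr_zero_iff.2 hd]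
    norm_num
  have h2n : ∀ k, ¬ pr k ∣ 2 := fun k => not_dvd_two (hp.pp k)
  set e := eq' (DD pr V) with he
  have einj : Function.Injective e := eq'_inj
  rw [← Finset.sum_filter]
  refine Finset.sum_involution (fun q _ => if e (σ * q) < e (-(σ * q)) then σ * q else -(σ * q))
    ?_ ?_ ?_ ?_
  · intro q _
    have h1 : gm pr V (if e (σ * q) < e (-(σ * q)) then σ * q else -(σ * q)).out =
        gm pr V q.out := by
      split_ifs
      · exact hgs q
      · rw [hgn, hgs]
    rw [h1]
    exact CharTwo.add_self_eq_zero _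
  · intro q _ hq hc
    have hu := hnd q hq
    split_ifs at hc
    · -- σ q = q
      have h3 : Ideal.Quotient.mk (Ideal.span {DD pr V}) ((s - 1) * q.out) = 0 := by
        rw [map_mul, map_sub, map_one, Ideal.Quotient.mk_out, sub_mul, one_mul]
        rw [← hσ, hc, sub_self]
      rw [Ideal.Quotient.eq_zero_iff_mem, Ideal.mem_span_singleton] at h3
      have h4 := (dvd_DD hr).trans h3
      rcases (hp.pp r).pr.dvd_or_dvd h4 with h5 | h5
      · have h6 := dvd_sub hsr h5
        have e2 : s + 1 - (s - 1) = 2 := by ring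
        rw [e2] at h6
        exact h2n r h6
      · exact hu r hr h5
    · have h3 : Ideal.Quotient.mk (Ideal.span {DD pr V}) ((s + 1) * q.out) = 0 := by
        rw [map_mul, map_add, map_one, Ideal.Quotient.mk_out, add_mul, one_mul]
        rw [← hσ]
        nth_rewrite 2 [← hc]
        rw [add_neg_cancel]
      rw [Ideal.Quotient.eq_zero_iff_mem, Ideal.mem_span_singleton] at h3
      have h4 := (dvd_DD hj).trans h3
      rcases (hp.pp j).pr.dvd_or_dvd h4 with h5 | h5
      · have h6 := dvd_sub h5 (hsj j hj hrj.symm)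
        have e2 : s + 1 - (s - 1) = 2 := by ring
        rw [e2] at h6
        exact h2n j h6
      · exact hu j hj h5
  · intro q hq
    rw [Finset.mem_filter] at hq ⊢
    refine ⟨Finset.mem_univ _, ?_⟩
    have hne : e (σ * q) ≠ e (-(σ * q)) := by
      intro h1
      have h2 := neg_eq hD (einj h1)
      have h3 : q = 0 := by
        have : σ * (σ * q) = 0 := by rw [h2, mul_zero]
        rwa [← mul_assoc, hσ2, one_mul] at this
      rw [h3, neg_zero] at hq
      exact lt_irrefl _ hq.2
    split_ifs with h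
    · exact h
    · rw [neg_neg]
      omega
  · intro q hq
    rw [Finset.mem_filter] at hq
    have hq2 := hq.2
    by_cases h : e (σ * q) < e (-(σ * q))
    · simp only [if_pos h]
      have e2 : σ * (σ * q) = q := by rw [← mul_assoc, hσ2, one_mul]
      rw [e2, if_pos hq2]
    · simp only [if_neg h]
      have e2 : σ * (-(σ * q)) = -q := by rw [mul_neg, ← mul_assoc, hσ2, one_mul]
      rw [e2, neg_neg, if_neg (by omega)]

end Pool.Agent.E8helper21.Q2
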