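import Pool.Agent.E8helper21.Q2.Rec2

/-!
The evaluation modulo the prime above two.
-/

set_option autoImplicit false
set_option linter.unusedSectionVars false

open Filter Complex
open scoped Topology PeriodPair
open H667R3 hiding sq
open Pool.Agent.TH936.CM Pool.Agent.W192.HK

namespace Pool.Agent.E8helper21.Q2

open Pool.Agent.Y699
open H385 (ZI RQ im1 nrm)
open Pool.Agent.H304R3.HK (tc HC LH)
open Pool.Agent.W164.RC (tc_mul tc_star two2 prim_iff_dvd unit_norm unit_cases)
open Pool.Agent.H304R2.EC.A1 (prim prim_mul prim_cancel prim_one prim_norm_odd prim_star eq_one_of_prim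
  norm_def' re_mul' im_mul' eq_of_dvd prim_ne_zero exists_prim)

variable {L : PeriodPair} {Ω : ℂ}

/-- the periodicity -/
theorem t_KP (h : S_LK) (hG : GLat L Ω) {z : ℂ} (hz : z ∉ L.lattice) (m : ZI) :
    Kf L Ω (z + Ω * tc (two2 * m)) = Kf L Ω z := by
  have hm : Ω * tc (two2 * m) ∈ L.lattice := (mem_lat hG.lat).2 ⟨_, rfl⟩
  have hz' : z + Ω * tc (two2 * m) ∉ L.lattice := by
    intro h'
    apply hz
    have := sub_mem h' hm
    rwa [add_sub_cancel_right] at this
  refine tendsto_nhds_unique (h L Ω hG _ hz') ((h L Ω hG _ hz).congr fun δ => ?_)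
  rw [← (Equiv.addRight (two2 * m)).tsum_eq]
  refine tsum_congr fun b => ?_
  rw [Equiv.coe_addRight]
  have e1 : tI (b + two2 * m) = tI b := by
    unfold tI
    have e2 : (b + two2 * m).re + (b + two2 * m).im = b.re + b.im + 4 * m.re := by
      rw [Zsqrtd.re_add, Zsqrtd.im_add, re_mul', im_mul']
      show b.re + (2 * m.re - 2 * m.im) + (b.im + (2 * m.im + 2 * m.re)) = _
      ring
    rw [e2, zpow_add₀ I_ne_zero, zpow_mul]
    have : (I : ℂ) ^ (4 : ℤ) = 1 := by
      have := I_pow_four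
      exact_mod_cast this
    rw [this, one_zpow, mul_one]
  rw [e1, tc_add]
  congr 2
  ring

section single

variable {ι : Type} [Fintype ι] [DecidableEq ι] {pr : ι → ZI}

lemma DD_single (r : ι) : DD pr {r} = pr r := by unfold DD; exact Finset.prod_singleton _ _

lemma sum_qr {π : ZI} (h : PP π) [Fintype (RQ π)] : ∑ q : RQ π, ((qr π q.out : ℤ) : ℂ) = 0 := by
  obtain ⟨b, hb⟩ := exists_nonres h
  have hbn : ¬ π ∣ b := by
    intro h'
    rw [qr_zero_iff.2 h'] at hb
    norm_num at hb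
  have hu : IsUnit (Ideal.Quotient.mk (Ideal.span {π}) b) := by
    obtain ⟨x, y, hxy⟩ := ((h.pr.irreducible.coprime_iff_not_dvd).2 hbn)
    refine IsUnit.of_mul_eq_one (Ideal.Quotient.mk (Ideal.span {π}) y) ?_
    rw [← map_mul, ← map_one (Ideal.Quotient.mk (Ideal.span {π})), Ideal.Quotient.eq,
      Ideal.mem_span_singleton]
    exact ⟨-x, by linear_combination hxy⟩
  have h1 : ∑ q : RQ π, ((qr π q.out : ℤ) : ℂ) = -∑ q : RQ π, ((qr π q.out : ℤ) : ℂ) := by
    conv_lhs => rw [← sum_unit_mul hu]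
    rw [← Finset.sum_neg_distrib]
    refine Finset.sum_congr rfl fun q _ => ?_
    rw [qr_per (out_mul π b q), qr_mul h, hb]
    push_cast
    ring
  have h2 : (2 : ℂ) * ∑ q : RQ π, ((qr π q.out : ℤ) : ℂ) = 0 := by linear_combination h1
  exact (mul_eq_zero.1 h2).resolve_left two_ne_zero

lemma out_zero {π : ZI} (q : RQ π) : π ∣ q.out ↔ q = 0 := by
  rw [← Ideal.mem_span_singleton, ← Ideal.Quotient.eq_zero_iff_mem, Ideal.Quotient.mk_out]

lemma count_nr {π : ZI} (h : PP π) [Fintype (RQ π)] :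
    2 * ∑ q : RQ π, (if qr π q.out = -1 then 1 else 0) = nrm π - 1 := by
  classical
  have h1 := sum_qr h
  have h2 : ∀ q : RQ π, ((qr π q.out : ℤ) : ℂ) = 1 - (if q = 0 then 1 else 0) -
      2 * (((if qr π q.out = -1 then 1 else 0 : ℕ)) : ℂ) := by
    intro q
    by_cases hq : q = 0
    · rw [if_pos hq, qr_zero_iff.2 ((out_zero q).2 hq)]
      norm_num
    · rw [if_neg hq]
      rcases qr_cases (fun h' => hq ((out_zero q).1 h')) with h3 | h3 <;> rw [h3] <;> norm_num
  rw [Finset.sum_congr rfl fun q _ => h2 q, Finset.sum_sub_distrib, Finset.sum_sub_distrib,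
    Finset.sum_ite_eq', if_pos (Finset.mem_univ _), ← Finset.mul_sum] at h1
  have hcard : Fintype.card (RQ π) = nrm π := by
    rw [← Nat.card_eq_fintype_card, H385.H10.card_RQ]
  simp only [Finset.sum_const, Finset.card_univ, hcard, nsmul_eq_mul, mul_one] at h1
  have h3 : ((2 * ∑ q : RQ π, (if qr π q.out = -1 then 1 else 0) + 1 : ℕ) : ℂ) = (nrm π : ℕ) := by
    push_cast
    push_cast at h1
    linear_combination -h1
  have h4 : 2 * ∑ q : RQ π, (if qr π q.out = -1 then 1 else 0) + 1 = nrm π := by exact_mod_cast h3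
  omega

lemma half_pi {π : ZI} (h : PP π) [Fintype (RQ π)] :
    ∑ q : RQ π, (if eq' π q < eq' π (-q) then (if qr π q.out = -1 then 1 else 0) else 0) =
      nrm π / 4 := by
  have h1 := count_nr h
  have h0 : (if qr π (0 : RQ π).out = -1 then 1 else 0) = 0 := by
    rw [if_neg]
    rw [qr_zero_iff.2 ((out_zero _).2 rfl)]
    norm_num
  rw [half_sum h.prm (fun q : RQ π => if qr π q.out = -1 then 1 else 0) h0] at h1
  have h2 : ∀ q : RQ π, (if eq' π q < eq' π (-q) then (if qr π q.out = -1 then 1 else 0) +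
      (if qr π (-q).out = -1 then 1 else 0) else 0) =
      2 * (if eq' π q < eq' π (-q) then (if qr π q.out = -1 then 1 else 0) else 0) := by
    intro q
    rw [qr_per (out_neg π q), qr_neg' h]
    split_ifs <;> rfl
  rw [Finset.sum_congr rfl fun q _ => h2 q, ← Finset.mul_sum] at h1
  have h3 := h.nrm_mod
  omega

lemma half_one (hp : PF pr) (r : ι) [Fintype (RQ (DD pr {r}))] :
    ∑ q : RQ (DD pr {r}), (if eq' (DD pr {r}) q < eq' (DD pr {r}) (-q) then
      gm pr {r} q.out else 0) = wt pr r := by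
  have key : ∀ (D : ZI) (_ : Fintype (RQ D)), D = pr r →
      ∑ q : RQ D, (if eq' D q < eq' D (-q) then gm pr {r} q.out else 0) = wt pr r := by
    intro D _ hD
    subst hD
    have h1 := half_pi (hp.pp r)
    have h2 := congrArg (Nat.cast : ℕ → ZMod 2) h1
    have h3 : wt pr r = ((nrm (pr r) / 4 : ℕ) : ZMod 2) := wt_wq hp r
    rw [h3, ← h2, Nat.cast_sum]
    refine Finset.sum_congr rfl fun q _ => ?_
    unfold gm
    rw [Finset.prod_singleton]
    split_ifs <;> simp
  exact key _ _ (DD_single r)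

end single

section cong

variable {Γ : Type} [LinearOrderedCommGroupWithZero Γ] {v : Valuation ℂ Γ}

variable (h2 : v 2 < 1)

include h2

lemma v_dvd {z : ZI} (h : pi1 ∣ z) : v (tc z) ≤ v (1 + I) := by
  obtain ⟨w, rfl⟩ := h
  rw [tc_mul, tc_pi1, map_mul]
  exact mul_le_of_le_one_right' (tc_le h2 w)

lemma cg_dvd {a b : ZI} (h : pi1 ∣ a - b) : Cg v (tc a) (tc b) :=
  ⟨tc_le h2 a, tc_le h2 b, by
    rw [← tc_sub]
    exact lt_of_le_of_lt (v_dvd h2 h) (v_pi_lt h2)⟩

lemma cg_root {t : ℂ} (h : t ^ 4 = 1) : Cg v t 1 := by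
  have hs : (t - 1) * ((t + 1) * ((t - I) * (t + I))) = 0 := by
    linear_combination h - (t ^ 2 - 1) * I_sq
  have e1 := cg_one (v := v) h2 (x := (1 : ZI)) (by decide)
  have e2 := cg_one (v := v) h2 (x := (-1 : ZI)) (by decide)
  have e3 := cg_one (v := v) h2 (x := im1) im1_norm
  have e4 := cg_one (v := v) h2 (x := -im1) (by decide)
  rw [tc_one] at e1
  rw [tc_neg, tc_one] at e2
  rw [tc_im1] at e3
  rw [tc_neg, tc_im1] at e4
  rcases mul_eq_zero.1 hs with h1 | h1
  · rw [sub_eq_zero.1 h1]; exact e1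
  rcases mul_eq_zero.1 h1 with h1 | h1
  · rw [eq_neg_of_add_eq_zero_left h1]; exact e2
  rcases mul_eq_zero.1 h1 with h1 | h1
  · rw [sub_eq_zero.1 h1]; exact e3
  · rw [eq_neg_of_add_eq_zero_left h1]; exact e4

end cong

section ev

variable {ι : Type} [Fintype ι] [DecidableEq ι] {pr : ι → ZI}
variable {Γ : Type} [LinearOrderedCommGroupWithZero Γ] {v : Valuation ℂ Γ} (h2 : v 2 < 1)

lemma Zf_per (hp : PF pr) (V : Finset ι) {a b : ZI} (hab : DD pr V ∣ a - b) :
    Zf pr V a = Zf pr V b := by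
  have h1 := FV_per hp V hab
  rw [FV_eq hp, FV_eq hp] at h1
  exact tc_inj (mul_left_cancel₀ (pow_ne_zero _ one_I_ne) h1)

lemma half_all (hp : PF pr) {V : Finset ι} (hV : V.Nonempty) [Fintype (RQ (DD pr V))] :
    ∑ q : RQ (DD pr V), (if eq' (DD pr V) q < eq' (DD pr V) (-q) then gm pr V q.out else 0) =
      RR (wt pr) V := by
  unfold RR
  rw [if_neg (Finset.card_pos.2 hV).ne']
  by_cases h1 : V.card = 1
  · obtain ⟨r, rfl⟩ := Finset.card_eq_one.1 h1
    rw [if_pos h1, Finset.sum_singleton]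
    exact half_one hp r
  · rw [if_neg h1]
    have := Finset.card_pos.2 hV
    exact half_two hp (by omega)

include h2 in
/-- **the evaluation** -/
theorem ev_ne (hK : S_LK) (hVal : S_VAL) (hG : GLat L Ω) (hp : PF pr) {m : ℂ} (hm : m ^ 4 = -8)
    {V : Finset ι} (hV : V.Nonempty) [Fintype (RQ (DD pr V))] :
    Cg v (∑ q : RQ (DD pr V), tc (Zf pr V (two2 * (two2 * q.out))) *
      (Kf L Ω (dz Ω + zq Ω (DD pr V) (two2 * q.out)) / m)) (uu (RR (wt pr) V)) := by
  classical
  have hD : prim (DD pr V) := DD_prim hp V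
  have hD0 : DD pr V ≠ 0 := prim_ne_zero hD
  obtain ⟨r, hr⟩ := hV
  have h0 : tc (Zf pr V (two2 * (two2 * (0 : RQ (DD pr V)).out))) *
      (Kf L Ω (dz Ω + zq Ω (DD pr V) (two2 * (0 : RQ (DD pr V)).out)) / m) = 0 := by
    have h1 : Zf pr V (two2 * (two2 * (0 : RQ (DD pr V)).out)) = 0 := by
      unfold Zf
      rw [if_neg]
      intro h
      apply h r hr
      have h3 : DD pr V ∣ (0 : RQ (DD pr V)).out := (out_zero _).2 rfl
      exact (((dvd_DD hr).trans h3).mul_left _).mul_left _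
    rw [h1, tc_zero, zero_mul]
  rw [half_sum hD (fun q : RQ (DD pr V) => tc (Zf pr V (two2 * (two2 * q.out))) *
      (Kf L Ω (dz Ω + zq Ω (DD pr V) (two2 * q.out)) / m)) h0]
  have key : ∀ q : RQ (DD pr V), Cg v (if eq' (DD pr V) q < eq' (DD pr V) (-q) then
      tc (Zf pr V (two2 * (two2 * q.out))) * (Kf L Ω (dz Ω + zq Ω (DD pr V) (two2 * q.out)) / m) +
      tc (Zf pr V (two2 * (two2 * (-q).out))) * (Kf L Ω (dz Ω + zq Ω (DD pr V) (two2 * (-q).out)) / m)
      else 0) (uu (if eq' (DD pr V) q < eq' (DD pr V) (-q) then gm pr V q.out else 0)) := by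
    intro q
    by_cases hq : eq' (DD pr V) q < eq' (DD pr V) (-q)
    · rw [if_pos hq, if_pos hq]
      have hq0 : q ≠ 0 := by
        rintro rfl
        rw [neg_zero] at hq
        exact lt_irrefl _ hq
      have hnd : ¬ DD pr V ∣ two2 * q.out := by
        intro h
        exact hq0 ((out_zero q).1 ((cop_two2 hD).symm.dvd_of_dvd_mul_left h))
      have hOT := zq_OT hG hD hnd
      set P := zq Ω (DD pr V) (two2 * q.out) with hP
      obtain ⟨c1, c2⟩ := hVal L Ω hG Γ v h2 m hm P hOT
      obtain ⟨c, hc⟩ := out_neg (DD pr V) q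
      have hz : dz Ω - P ∉ L.lattice := by
        have := dz_add hG hD (-(two2 * q.out))
        rwa [zq_neg, ← sub_eq_add_neg] at this
      have e1 : Kf L Ω (dz Ω + zq Ω (DD pr V) (two2 * (-q).out)) = Kf L Ω (dz Ω - P) := by
        rw [← t_KP hK hG hz c]
        congr 1
        have hc' := congrArg tc (show (-q).out = -q.out + DD pr V * c by linear_combination hc)
        rw [hP]
        unfold zq
        have hDc := tc_ne hD0
        rw [tc_mul two2 (-q).out, hc']
        simp only [tc_mul, tc_add, tc_neg]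
        field_simp
        ring
      have e2 : Zf pr V (two2 * (two2 * (-q).out)) = Zf pr V (-(two2 * (two2 * q.out))) := by
        apply Zf_per hp
        exact ⟨two2 * (two2 * c), by linear_combination (two2 * two2) * hc⟩
      rw [e1, e2]
      set a := two2 * (two2 * q.out) with ha
      set K1 := Kf L Ω (dz Ω + P)
      set K2' := Kf L Ω (dz Ω - P)
      obtain ⟨w, hw⟩ := Zf_diff hp V a
      have e3 : tc (Zf pr V a) * (K1 / m) + tc (Zf pr V (-a)) * (K2' / m) =
          tc (Zf pr V a) * ((K1 + K2') / m) + tc w * ((1 + I) * K2' / m) := by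
        have h5 : tc (Zf pr V (-a)) = tc (Zf pr V a) + (1 + I) * tc w := by
          have := congrArg tc hw
          rw [tc_sub, tc_mul, tc_pi1] at this
          linear_combination this
        rw [h5]
        ring
      rw [e3]
      have c3 : Cg v (tc (Zf pr V a)) (uu (gm pr V q.out)) := by
        rw [← gm_two2 hp, ← tc_gz]
        exact cg_dvd h2 (Zf_cong hp V a)
      have c4 := c3.mul c1
      have c5 : Cg v (tc w * ((1 + I) * K2' / m)) 0 := by
        apply Cg.zero
        rw [map_mul]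
        exact lt_of_le_of_lt (mul_le_of_le_one_left' (tc_le h2 w)) c2
      have c6 := c4.add c5
      rwa [mul_one, add_zero] at c6
    · rw [if_neg hq, if_neg hq, uu_zero]
      exact Cg.refl (by rw [map_zero]; exact zero_le_one)
  have h5 := Cg.sum Finset.univ fun q _ => key q
  refine h5.trans ?_
  rw [← half_all hp ⟨r, hr⟩]
  exact (uu_sum h2 _ _).symm

include h2 in
theorem ev_empty (hK : S_LK) (hG : GLat L Ω) (hM0 : Kf L Ω (dz Ω) ^ 4 = -8) {m : ℂ}
    (hm : m ^ 4 = -8) [Fintype (RQ (DD pr ∅))] :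
    Cg v (∑ q : RQ (DD pr ∅), tc (Zf pr ∅ (two2 * (two2 * q.out))) *
      (Kf L Ω (dz Ω + zq Ω (DD pr ∅) (two2 * q.out)) / m)) 1 := by
  classical
  have hD : DD pr ∅ = 1 := by unfold DD; exact Finset.prod_empty
  have hcard : Fintype.card (RQ (DD pr ∅)) = 1 := by
    rw [← Nat.card_eq_fintype_card, H385.H10.card_RQ, hD]
    decide
  have h1 : ∀ q : RQ (DD pr ∅), tc (Zf pr ∅ (two2 * (two2 * q.out))) *
      (Kf L Ω (dz Ω + zq Ω (DD pr ∅) (two2 * q.out)) / m) = Kf L Ω (dz Ω) / m := by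
    intro q
    have e1 : Zf pr ∅ (two2 * (two2 * q.out)) = 1 := by
      unfold Zf
      rw [if_pos (fun i hi => absurd hi (Finset.notMem_empty i)), Finset.prod_empty]
    have e2 : zq Ω (DD pr ∅) (two2 * q.out) = Ω * tc (two2 * q.out) := by
      unfold zq
      have : tc (DD pr ∅) = 1 := by rw [hD, tc_one]
      rw [this, div_one]
    rw [e1, e2, tc_one, one_mul, t_KP hK hG hG.dz_notMem]
  rw [Finset.sum_congr rfl fun q _ => h1 q, Finset.sum_const, Finset.card_univ, hcard, one_smul]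
  apply cg_root h2
  rw [div_pow, hM0, hm]
  norm_num

end ev

end Pool.Agent.E8helper21.Q2
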