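import Pool.Agent.E8helper21.Q2.Rec3

/-!
The recursion modulo the prime above two.
-/

set_option autoImplicit false
set_option linter.unusedSectionVars false

open Filter Complex
open scoped Topology PeriodPair
open H667R3 hiding sq
open Pool.Agent.TH936.CM Pool.Agent.W192.HK

namespace Pool.Agent.E8helper21.Q2

open Pool.Agent.Y699
open H385 (ZI RQ im1 nrm)
open Pool.Agent.H304R3.HK (tc HC LH)
open Pool.Agent.W164.RC (tc_mul tc_star two2 prim_iff_dvd unit_norm unit_cases)
open Pool.Agent.H304R2.EC.A1 (prim prim_mul prim_cancel prim_one prim_norm_odd prim_star eq_one_of_prim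
  norm_def' re_mul' im_mul' eq_of_dvd prim_ne_zero exists_prim)

variable {L : PeriodPair} {Ω : ℂ} {ι : Type} [Fintype ι] [DecidableEq ι] {pr : ι → ZI}

/-- the sign -/
def sz (a : ZMod 2) : ZI := if a = 1 then -1 else 1

lemma sz_add (a b : ZMod 2) : sz (a + b) = sz a * sz b := by
  revert a b; decide

lemma sz_sum {κ : Type*} (S : Finset κ) (f : κ → ZMod 2) : sz (∑ u ∈ S, f u) = ∏ u ∈ S, sz (f u) := by
  classical
  induction S using Finset.induction_on with
  | empty => rw [Finset.sum_empty, Finset.prod_empty]; decide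
  | insert a S ha ih => rw [Finset.sum_insert ha, Finset.prod_insert ha, sz_add, ih]

lemma sz_iff (a : ZMod 2) : sz a = -1 ↔ a = 1 := by revert a; decide

lemma x2_sq (hp : PF pr) (j : ι) : x2 (pr j) ^ 2 = sz (wt pr j) := by
  obtain ⟨h1, h2⟩ := (hp.pp j).prm
  have hn := norm_def' (pr j)
  obtain ⟨k, hk⟩ : ∃ k, (pr j).im = 2 * k := ⟨(pr j).im / 2, by omega⟩
  obtain ⟨l, hl⟩ : ∃ l, (pr j).re = 2 * l + 1 := ⟨(pr j).re / 2, by omega⟩
  have e1 : (pr j).norm = 4 * (l * (l + 1)) + 1 + 4 * (k * k) := by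
    rw [hn, hk, hl]; ring
  obtain ⟨c, hc⟩ := Int.even_mul_succ_self l
  unfold wt sz x2
  have hk2 : (pr j).im / 2 = k := by omega
  rw [hk2]
  rcases Int.even_or_odd' k with ⟨t, ht | ht⟩
  · have e2 : (pr j).norm % 8 ≠ 5 := by
      have : k * k = 4 * (t * t) := by rw [ht]; ring
      rw [e1, this, hc]
      omega
    rw [if_neg e2, if_neg (by decide)]
    have h3 : k % 4 = 0 ∨ k % 4 = 2 := by omega
    rcases h3 with h3 | h3 <;> rw [h3] <;> decide
  · have e2 : (pr j).norm % 8 = 5 := by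
      have : k * k = 4 * (t * t + t) + 1 := by rw [ht]; ring
      rw [e1, this, hc]
      omega
    rw [if_pos e2, if_pos rfl]
    have h3 : k % 4 = 1 ∨ k % 4 = 3 := by omega
    rcases h3 with h3 | h3 <;> rw [h3] <;> decide

lemma qr_sz (hp : PF pr) {u j : ι} (h : u ≠ j) :
    q4 (pr u) (pr j) ^ 2 = sz (Pool.Agent.Y699.em pr u j) := by
  have hnd : ¬ pr u ∣ pr j := fun h' => h (hp.inj ((hp.pp u).eq_of_dvd (hp.pp j) h'))
  rw [q4_sq (hp.pp u), em_symm hp]
  unfold Pool.Agent.Y699.em sz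
  rcases qr_cases hnd with h1 | h1
  · rw [h1]; decide
  · rw [h1]; decide

section val

variable {Γ : Type} [LinearOrderedCommGroupWithZero Γ] {v : Valuation ℂ Γ} (h2 : v 2 < 1)

include h2

lemma v_prim {a : ZI} (ha : prim a) : Cg v (tc a) 1 ∧ v (tc a) = 1 := by
  have h1 : Cg v (tc a) 1 := by
    have h3 : pi1 ∣ a - 1 := by
      refine Dvd.dvd.trans ?_ ((prim_iff_dvd a).1 ha)
      exact ⟨2, by decide⟩
    have := cg_dvd (v := v) h2 h3
    rwa [tc_one] at this
  refine ⟨h1, ?_⟩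
  have e : tc a = (tc a - 1) + 1 := by ring
  rw [e, Valuation.map_add_eq_of_lt_right, map_one]
  rw [map_one]
  exact h1.s

/-- the factors -/
theorem fac_cg (hp : PF pr) {S : Finset ι} {j : ι} (hj : j ∉ S) :
    Cg v ((1 - cs pr S j / tc (pr j)) / (1 + I))
      (uu (wt pr j + ∑ u ∈ S, Pool.Agent.Y699.em pr u j)) := by
  set y := x2 (pr j) * c4 pr S on1 (pr j) with hy
  have hyn : y.norm = 1 := by
    rw [hy, Zsqrtd.norm_mul, x2_norm, c4_norm hp, one_mul]
    intro u hu h'
    exact hj (by rw [← hp.inj ((hp.pp u).eq_of_dvd (hp.pp j) h')]; exact hu)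
  have hy2 : y ^ 2 = sz (wt pr j + ∑ u ∈ S, Pool.Agent.Y699.em pr u j) := by
    rw [hy, mul_pow, x2_sq hp, sz_add, sz_sum, c4_one_exp hp, ← Finset.prod_pow]
    congr 1
    refine Finset.prod_congr rfl fun u hu => ?_
    rw [qr_sz hp (fun h : u = j => hj (by rw [← h]; exact hu))]
  have hny : (-y).norm = 1 := by rw [Zsqrtd.norm_neg]; exact hyn
  obtain ⟨z1, z2⟩ := zf_eq hny
  obtain ⟨t, ht⟩ := (prim_iff_dvd (pr j)).1 (hp.pp j).prm
  have hπ := tc_ne (hp.pp j).ne
  have h1I := one_I_ne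
  have e1 : (1 - cs pr S j / tc (pr j)) / (1 + I) = tc (zf (-y) + 2 * t) / tc (pr j) := by
    have e2 : pr j - y = pi1 * (zf (-y) + 2 * t) := by
      have e3 : two2 = pi1 * 2 := by decide
      rw [e3] at ht
      linear_combination ht + z1
    have e4 := congrArg tc e2
    rw [tc_sub, tc_mul pi1, tc_pi1] at e4
    have e5 : cs pr S j = tc y := rfl
    rw [e5]
    field_simp
    linear_combination e4
  rw [e1]
  have c1 : Cg v (tc (zf (-y) + 2 * t)) (uu (wt pr j + ∑ u ∈ S, Pool.Agent.Y699.em pr u j)) := by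
    have c2 : pi1 ∣ (zf (-y) + 2 * t) - (if (-y) ^ 2 = -1 then 1 else 0) := by
      have e3 : (zf (-y) + 2 * t) - (if (-y) ^ 2 = -1 then 1 else 0) =
          (zf (-y) - (if (-y) ^ 2 = -1 then 1 else 0)) + 2 * t := by ring
      rw [e3]
      refine dvd_add z2 (Dvd.dvd.mul_right ⟨⟨1, -1⟩, by decide⟩ _)
    have c3 := cg_dvd (v := v) h2 c2
    have e4 : tc (if (-y) ^ 2 = -1 then 1 else 0) =
        uu (wt pr j + ∑ u ∈ S, Pool.Agent.Y699.em pr u j) := by
      rw [neg_sq, hy2]
      unfold uu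
      by_cases h : wt pr j + ∑ u ∈ S, Pool.Agent.Y699.em pr u j = 1
      · rw [if_pos h, if_pos ((sz_iff _).2 h), tc_one]
      · rw [if_neg h, if_neg (fun h' => h ((sz_iff _).1 h')), tc_zero]
    rwa [e4] at c3
  obtain ⟨p1, p2⟩ := v_prim (v := v) h2 (hp.pp j).prm
  have c4 : Cg v (tc (pr j))⁻¹ 1 := by
    refine ⟨by rw [map_inv₀, p2, inv_one], by rw [map_one], ?_⟩
    have e : (tc (pr j))⁻¹ - 1 = -(tc (pr j) - 1) * (tc (pr j))⁻¹ := by
      field_simp
      ring
    rw [e, map_mul, map_inv₀, p2, inv_one, mul_one, Valuation.map_neg]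
    exact p1.s
  have c5 := c1.mul c4
  rw [mul_one] at c5
  rwa [div_eq_mul_inv]

end val

/-- the normalized value -/
noncomputable def mu (Ω m : ℂ) (M : Finset ι → ℂ) (S : Finset ι) : ℂ :=
  M S / (Ω / tc two2 * m * (1 + I) ^ S.card)

/-- **the congruence** -/
theorem mu_cg (hLim : S_LIM) (hK : S_LK) (hVal : S_VAL) (hGR : S_GR1) (hG : GLat L Ω)
    (hM0 : Kf L Ω (dz Ω) ^ 4 = -8) (hp : PF pr) {m : ℂ} (hm : m ^ 4 = -8) {M : Finset ι → ℂ}
    (hM : ∀ S, Tendsto (RS (cx pr S)) (𝓝[>] 0) (𝓝 (M S)))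
    {Γ : Type} [LinearOrderedCommGroupWithZero Γ] {v : Valuation ℂ Γ} (h2 : v 2 < 1) :
    ∀ V : Finset ι, Cg v (mu Ω m M V) (uu (NN (wt pr) (Pool.Agent.Y699.em pr) V)) := by
  classical
  intro V
  induction V using Finset.strongInduction with
  | H V ih =>
    haveI := H385.he1_finite (DD_ne hp V)
    letI := Fintype.ofFinite (RQ (DD pr V))
    have hm0 : m ≠ 0 := by
      rintro rfl
      norm_num at hm
    have hΩ := hG.lat.ne
    have h2c := tc_ne two2_ne
    have h1I := one_I_ne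
    have hDc := tc_ne (DD_ne hp V)
    have hD := DD_prim hp V
    have hrel := rel_T hLim hG hp hM V
    -- the right hand side
    set X : ℂ := ∑ q : RQ (DD pr V), tc (Zf pr V (two2 * (two2 * q.out))) *
      (Kf L Ω (dz Ω + zq Ω (DD pr V) (two2 * q.out)) / m) with hX
    have hXc : Cg v X (uu (RR (wt pr) V)) := by
      rcases V.eq_empty_or_nonempty with rfl | hne
      · have h5 := ev_empty (pr := pr) h2 hK hG hM0 hm
        have e : RR (wt pr) ∅ = 1 := by unfold RR; simp
        rw [e, uu_one]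
        exact h5
      · exact ev_ne h2 hK hVal hG hp hm hne
    have hR : ∑ S ∈ V.powerset, mu Ω m M S *
        ∏ j ∈ V \ S, ((1 - cs pr S j / tc (pr j)) / (1 + I)) =
        tc (x2 (DD pr V)) / tc (DD pr V) * X := by
      have e1 : ∀ S ∈ V.powerset, mu Ω m M S *
          ∏ j ∈ V \ S, ((1 - cs pr S j / tc (pr j)) / (1 + I)) =
          (M S * ∏ i ∈ V \ S, (1 - cs pr S i / tc (pr i))) /
            (Ω / tc two2 * m * (1 + I) ^ V.card) := by
        intro S hS
        rw [Finset.mem_powerset] at hS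
        have e2 : (V \ S).card + S.card = V.card := Finset.card_sdiff_add_card_eq_card hS
        rw [Finset.prod_div_distrib, Finset.prod_const, ← e2, pow_add]
        unfold mu
        field_simp
      rw [Finset.sum_congr rfl e1, ← Finset.sum_div, hrel, hX, Finset.mul_sum, Finset.mul_sum,
        Finset.sum_div]
      refine Finset.sum_congr rfl fun q _ => ?_
      rw [FV_eq hp]
      field_simp
    have hYc : Cg v (tc (x2 (DD pr V)) / tc (DD pr V) * X) (uu (RR (wt pr) V)) := by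
      obtain ⟨p1, p2⟩ := v_prim (v := v) h2 hD
      have c1 := cg_one (v := v) h2 (x2_norm (DD pr V))
      have c2 : Cg v (tc (x2 (DD pr V)) / tc (DD pr V)) 1 := by
        refine ⟨by rw [map_div₀, p2, div_one]; exact c1.l, by rw [map_one], ?_⟩
        have e : tc (x2 (DD pr V)) / tc (DD pr V) - 1 =
            ((tc (x2 (DD pr V)) - 1) - (tc (DD pr V) - 1)) / tc (DD pr V) := by
          field_simp
          ring
        rw [e, map_div₀, p2, div_one]
        exact v.map_sub_lt c1.s p1.s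
      have := c2.mul hXc
      rwa [one_mul] at this
    -- the two sums
    have hVm : V ∈ V.powerset := Finset.mem_powerset_self V
    rw [← Finset.add_sum_erase _ _ hVm, Finset.sdiff_self, Finset.prod_empty, mul_one] at hR
    have hN := hGR ι (wt pr) (Pool.Agent.Y699.em pr) (em_self hp) (em_symm hp) V
    rw [← Finset.add_sum_erase _ _ hVm, Finset.sdiff_self, Finset.prod_empty, mul_one] at hN
    have hsum : Cg v (∑ S ∈ V.powerset.erase V, mu Ω m M S *
        ∏ j ∈ V \ S, ((1 - cs pr S j / tc (pr j)) / (1 + I)))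
        (∑ S ∈ V.powerset.erase V, uu (NN (wt pr) (Pool.Agent.Y699.em pr) S *
          ∏ j ∈ V \ S, (wt pr j + ∑ u ∈ S, Pool.Agent.Y699.em pr u j))) := by
      refine Cg.sum _ fun S hS => ?_
      rw [Finset.mem_erase, Finset.mem_powerset] at hS
      have hlt : S ⊂ V := Finset.ssubset_iff_subset_ne.2 ⟨hS.2, hS.1⟩
      rw [uu_mul, uu_prod]
      refine (ih S hlt).mul (Cg.prod _ fun j hj => ?_)
      exact fac_cg h2 hp (Finset.mem_sdiff.1 hj).2
    have e1 : mu Ω m M V = tc (x2 (DD pr V)) / tc (DD pr V) * X -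
        ∑ S ∈ V.powerset.erase V, mu Ω m M S *
          ∏ j ∈ V \ S, ((1 - cs pr S j / tc (pr j)) / (1 + I)) := by
      linear_combination hR
    have c6 := hYc.sub (hsum.trans (uu_sum h2 _ _).symm)
    rw [← e1] at c6
    refine c6.trans ?_
    have e2 : RR (wt pr) V = NN (wt pr) (Pool.Agent.Y699.em pr) V +
        ∑ S ∈ V.powerset.erase V, NN (wt pr) (Pool.Agent.Y699.em pr) S *
          ∏ j ∈ V \ S, (wt pr j + ∑ u ∈ S, Pool.Agent.Y699.em pr u j) := hN.symm
    rw [e2]
    set a := NN (wt pr) (Pool.Agent.Y699.em pr) V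
    set b := ∑ S ∈ V.powerset.erase V, NN (wt pr) (Pool.Agent.Y699.em pr) S *
          ∏ j ∈ V \ S, (wt pr j + ∑ u ∈ S, Pool.Agent.Y699.em pr u j)
    have c7 := (uu_add (v := v) h2 a b).sub (Cg.refl (v_uu (v := v) b))
    rwa [add_sub_cancel_right] at c7

end Pool.Agent.E8helper21.Q2
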